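import Mathlib
import Pool.Agent.H30.Refine

set_option autoImplicit false

namespace Pool.Agent.Results.MP_902647_gt.Fewer

open Pool.Agent.H30.Refine

theorem result : ∃ (C : Set ((Fin 3 → ℝ) × ℝ)) (T : Set ((Fin 3 × Bool) ⊕ Option (Fin 3) → ℝ))
    (D : Set ((Fin 3 × Bool) ⊕ Option (Fin 3) → ℝ))
    (f : ((Fin 3 × Bool) ⊕ Option (Fin 3) → ℝ) → (Fin 3 → ℝ) × ℝ)
    (W : Set (T → ℝ)) (g : (T → ℝ) → (C → ℝ)),
    IsPolytope C ∧ (∀ k, ¬ IsSimplex C k) ∧ (C.extremePoints ℝ).ncard = 12 ∧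
      IsSimplex T 9 ∧ (T.extremePoints ℝ).ncard ≤ 10 ∧ Refines C T D f W g := by
  obtain ⟨W, g, h⟩ := refines (d := 3) (by norm_num)
  exact ⟨_, _, _, _, W, g, ⟨_, Set.finite_range _, rfl⟩, not_simplex (by norm_num),
    ncard_ext (by norm_num), std_simplex (d := 3), simplex_ext_le (std_simplex (d := 3)), h⟩

end Pool.Agent.Results.MP_902647_gt.Fewer
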